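import Pool.Agent.H496Z.RainsMain

open Pool.Agent.H496Z.Rains

/-- A non-chiral, anomaly-free, asymptotically free USp(6) gauge theory whose Rains function is
strictly positive on a punctured neighbourhood of the origin but takes a negative value. -/
theorem Pool.Agent.Results.MP_4046ef_mp.ACounterexample.result :
    ∃ (n : ℕ) (D : Fin n → Multiplet),
      QuadAnomaly D ∧ CubicAnomaly D ∧ NonChiral D ∧ AsymptoticallyFree D ∧
      (∃ ε : ℝ, 0 < ε ∧ ∀ x : Fin 3 → ℝ, x ≠ 0 → ‖x‖ < ε → 0 < rains D x) ∧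
      ∃ x : Fin 3 → ℝ, rains D x < 0 :=
  ⟨6, D, quad, cubic, nonchiral, af, ⟨1 / 3, by norm_num, local_pos⟩, _, neg_at⟩
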